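import Pool.Agent.Helper96.CT.Stmts2

/-!
# Sheet CT, row PQ: the end of a longest path of a tree
-/

set_option autoImplicit false

namespace Pool.Agent.Helper73.CT

open SimpleGraph Pool.Agent.Helper96.CT

/-- a neighbour of the first vertex of a path which is not the second one is not on the path -/
theorem kl {W : Type} {T : SimpleGraph W} (hT : T.IsAcyclic) {c x w a : W} (h : T.Adj c x)
    (Q : T.Walk x w) (hQ : (Walk.cons h Q).IsPath) (ha : T.Adj c a) (hax : a ≠ x) :
    a ∉ (Walk.cons h Q).support := by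
  classical
  intro hmem
  rw [Walk.support_cons, List.mem_cons] at hmem
  have hm : a ∈ Q.support := hmem.resolve_left ha.ne'
  obtain ⟨q1, q2⟩ := (Walk.cons_isPath_iff h Q).1 hQ
  have r1 : (Walk.cons h (Q.takeUntil a hm)).IsPath := by
    rw [Walk.cons_isPath_iff]
    exact ⟨q1.takeUntil hm, fun hc => q2 (Q.support_takeUntil_subset_support hm hc)⟩
  have r2 : (Walk.cons ha (Walk.nil : T.Walk a a)).IsPath := by
    rw [Walk.cons_isPath_iff]
    refine ⟨Walk.IsPath.nil, ?_⟩
    rw [Walk.support_nil, List.mem_singleton]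
    exact ha.ne
  have hs := hT.subsingleton_path c a
  have e := hs.elim ⟨_, r1⟩ ⟨_, r2⟩
  have e1 : (Walk.cons h (Q.takeUntil a hm)) = Walk.cons ha (Walk.nil : T.Walk a a) :=
    congrArg Subtype.val e
  have e2 := congrArg Walk.length e1
  rw [Walk.length_cons, Walk.length_cons, Walk.length_nil] at e2
  exact hax (Walk.eq_of_length_eq_zero (p := Q.takeUntil a hm) (by omega)).symm

theorem longest {W : Type} [Fintype W] (T : SimpleGraph W) {u v : W} (p : T.Walk u v)
    (hp : p.IsPath) : ∃ (a b : W) (P : T.Walk a b), P.IsPath ∧ p.length ≤ P.length ∧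
      ∀ (c d : W) (q : T.Walk c d), q.IsPath → q.length ≤ P.length := by
  by_contra hcon
  push Not at hcon
  have key : ∀ n : ℕ, ∃ (a b : W) (P : T.Walk a b), P.IsPath ∧ p.length ≤ P.length ∧
      n ≤ P.length := by
    intro n
    induction n with
    | zero => exact ⟨u, v, p, hp, le_rfl, Nat.zero_le _⟩
    | succ n ih =>
      obtain ⟨a, b, P, h1, h2, h3⟩ := ih
      obtain ⟨c, d, q, h4, h5⟩ := hcon a b P h1 h2
      exact ⟨c, d, q, h4, by omega, by omega⟩
  obtain ⟨a, b, P, h1, -, h3⟩ := key (Fintype.card W)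
  have := h1.length_lt
  omega

theorem long3 {W : Type} {T : SimpleGraph W} (hT : T.IsTree)
    (h : ∀ v, ∃ w, w ≠ v ∧ ¬ T.Adj v w) : ∃ (a b : W) (P : T.Walk a b), P.IsPath ∧
      3 ≤ P.length := by
  classical
  have hne : Nonempty W := hT.1.nonempty
  -- a path to a vertex that is not a neighbour
  have two : ∀ v : W, ∃ (x y w : W) (h1 : T.Adj v x) (h2 : T.Adj x y) (Q : T.Walk y w),
      (Walk.cons h1 (Walk.cons h2 Q)).IsPath := by
    intro v
    obtain ⟨w, hw, hvw⟩ := h v
    obtain ⟨p⟩ := hT.1.preconnected v w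
    obtain ⟨P, hP⟩ : ∃ P : T.Walk v w, P.IsPath := ⟨p.toPath.1, p.toPath.2⟩
    cases P with
    | nil => exact absurd rfl hw
    | cons h1 P1 =>
      cases P1 with
      | nil => exact absurd h1 hvw
      | cons h2 P2 => exact ⟨_, _, _, h1, h2, P2, hP⟩
  obtain ⟨v0⟩ := hne
  obtain ⟨c, c2, w0, h1, h2, Q0, hQ0⟩ := two v0
  have hv : v0 ≠ c2 := by
    intro hv
    have := ((Walk.cons_isPath_iff _ _).1 hQ0).2
    apply this
    rw [Walk.support_cons, List.mem_cons]
    right
    rw [hv]
    exact Walk.start_mem_support _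
  obtain ⟨x, y, w, k1, k2, Q, hQ⟩ := two c
  obtain ⟨a, ha, hax⟩ : ∃ a, T.Adj c a ∧ a ≠ x := by
    by_cases hx : v0 = x
    · exact ⟨c2, h2, fun e => hv (by rw [hx, e])⟩
    · exact ⟨v0, h1.symm, hx⟩
  refine ⟨a, w, Walk.cons ha.symm (Walk.cons k1 (Walk.cons k2 Q)), ?_, ?_⟩
  · rw [Walk.cons_isPath_iff]
    exact ⟨hQ, kl hT.2 k1 _ hQ ha hax⟩
  · simp only [Walk.length_cons]
    omega

theorem st_PQ : ST_PQ := by
  classical
  intro W _ T hT h
  obtain ⟨a0, b0, P0, hP0, hl⟩ := long3 hT h
  obtain ⟨a, b, P, hP, hle, hmax⟩ := longest T P0 hP0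
  have hlen : 3 ≤ P.length := hl.trans hle
  cases P with
  | nil => simp at hlen
  | @cons _ w1 _ h1 P1 =>
    cases P1 with
    | nil => simp at hlen
    | @cons _ w2 _ h2 P2 =>
      cases P2 with
      | nil => simp at hlen
      | @cons _ w3 _ h3 P3 =>
        obtain ⟨q1, q2⟩ := (Walk.cons_isPath_iff _ _).1 hP
        obtain ⟨q3, q4⟩ := (Walk.cons_isPath_iff _ _).1 q1
        refine ⟨w1, w2, w3, h2, h3, ?_, ?_, a, h1.symm, ?_⟩
        · rintro rfl
          apply q4
          rw [Walk.support_cons, List.mem_cons]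
          exact Or.inr (Walk.start_mem_support _)
        · intro w hw hw2 u hu
          by_contra hne
          have r1 : (Walk.cons hw.symm (Walk.cons h2 (Walk.cons h3 P3))).IsPath := by
            rw [Walk.cons_isPath_iff]
            exact ⟨q1, kl hT.2 h2 _ q1 hw hw2⟩
          have r2 : (Walk.cons hu.symm (Walk.cons hw.symm
              (Walk.cons h2 (Walk.cons h3 P3)))).IsPath := by
            rw [Walk.cons_isPath_iff]
            exact ⟨r1, kl hT.2 hw.symm _ r1 hu hne⟩
          have := hmax _ _ _ r2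
          simp only [Walk.length_cons] at this
          omega
        · rintro rfl
          apply q2
          rw [Walk.support_cons, List.mem_cons]
          exact Or.inr (Walk.start_mem_support _)

end Pool.Agent.Helper73.CT
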